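import Pool.Agent.Helper75.EC.Assembly

/-!
# Generators of the effective cone of `ℙⁿ × ℙⁿ⁺¹` blown up at `n + 3` general points

For every `n ≥ 1`, `Eff(X) = Mov(X) + cone(BSJ classes, E₁, ..., E_{n+3}, extremal classes pulled
back from the two factors)`.  The definitions are in `Pool.Agent.Helper75.EC.Defs`.
-/

namespace Pool.Agent.Results.MP_df0ee7_ag.EffectiveCone

open Pool.Agent.Helper75.EC

theorem result {K : Type*} [Field K] [IsAlgClosed K] (n : ℕ) (_hn : 1 ≤ n)
    (u : Fin (n + 3) → Fin (n + 1) → K) (v : Fin (n + 3) → Fin (n + 2) → K)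
    (hu : ∀ s : Finset (Fin (n + 3)), s.card = n + 1 → LinearIndependent K fun i : s => u i)
    (hv : ∀ s : Finset (Fin (n + 3)), s.card = n + 2 → LinearIndependent K fun i : s => v i) :
    Eff u v = {x | ∃ y ∈ Mov u v,
      ∃ z ∈ coneHull (bsjClasses u v ∪ exceptional n ∪ pulledBack u v), x = y + z} :=
  assembled_all K n u v hu hv

end Pool.Agent.Results.MP_df0ee7_ag.EffectiveCone
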